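import Pool.Agent.K1H22.SR.Stm2
import Pool.Agent.K1H16.SR.Main

/-! Project SR2 (MP_60edde_al), piece MAIN2: the main theorem from DYER, SLOPE2, COS2 (adapted
from `K1H16.SR.Main`). -/

set_option autoImplicit false

namespace Pool.Agent.K1H68.SR2

open Pool.Agent.K1H22.SR Pool.Agent.K1H22.SR2 Pool.Agent.K1H16.SR Filter

theorem t_MAIN2 (h1 : Pool.Agent.K1H22.SR.S_DYER) (h2 : S_SLOPE2) (h3 : S_COS2) : S_MAIN2 := by
  intro B W _ _ _ M cs hS w
  obtain ⟨ω, rfl⟩ := cs.wordProd_surjective w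
  by_cases hω : ω = []
  · refine ⟨0, ?_⟩
    subst hω
    have h : (fun n : ℕ => (rl cs (cs.wordProd [] ^ n) : ℝ) / n) = fun _ => ((0 : ℚ) : ℝ) := by
      funext n
      rw [cs.wordProd_nil, one_pow, rl_one]
      simp
    rw [h]
    exact tendsto_const_nhds
  set w := cs.wordProd ω with hw
  -- subadditivity
  set a : ℕ → ℝ := fun n => (rl cs (w ^ n) : ℝ) with ha
  have hsub : Subadditive a := by
    intro m n
    simp only [ha]
    rw [pow_add]
    exact_mod_cast rl_mul cs _ _
  have hbdd : BddBelow (Set.range fun n => a n / n) := by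
    refine ⟨0, ?_⟩
    rintro _ ⟨n, rfl⟩
    simp only [ha]
    positivity
  have htend := hsub.tendsto_lim hbdd
  set s : ℝ := hsub.lim with hs
  have hsn : ∀ n : ℕ, s * n ≤ a n := by
    intro n
    rcases Nat.eq_zero_or_pos n with rfl | hn
    · simp only [ha]
      push_cast
      rw [mul_zero]
      positivity
    · have h := hsub.lim_le_div hbdd hn.ne'
      have hn' : (0 : ℝ) < n := by exact_mod_cast hn
      rw [le_div_iff₀ hn'] at h
      exact h
  -- the semilinear set
  obtain ⟨T, hT, E, t0, hE⟩ := h3 W B cs.simple ω hω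
  have hsemi : IsSemilinearSet {v : ℕ × ℕ | GW E t0 t0 1 v} := hS (ℕ × ℕ) T E t0 t0
  obtain ⟨q, hq⟩ := h2 {v : ℕ × ℕ | GW E t0 t0 1 v} s hsemi (by
    intro n d hd
    obtain ⟨u, u1, u2, u3⟩ := (hE n d).1 hd
    have h := (h1 B W M cs (List.replicate n ω).flatten).1 u u1 u2
    rw [wordProd_rep, length_rep, ← u3, ← hw] at h
    have h' : rl cs (w ^ n) ≤ d := by omega
    refine (hsn n).trans ?_
    simp only [ha]
    exact_mod_cast h') (by
    intro ε hε N
    have hev : ∀ᶠ n : ℕ in atTop, a n / n < s + ε :=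
      htend.eventually_lt_const (by linarith)
    obtain ⟨n, hn1, hn2⟩ := (hev.and (eventually_ge_atTop (max N 1))).exists
    have hn3 : N ≤ n := (le_max_left _ _).trans hn2
    have hn4 : 1 ≤ n := (le_max_right _ _).trans hn2
    have hn' : (0 : ℝ) < n := by exact_mod_cast hn4
    refine ⟨n, rl cs (w ^ n), hn3, (hE _ _).2 ?_, ?_⟩
    · obtain ⟨u, u1, u2, u3⟩ := (h1 B W M cs (List.replicate n ω).flatten).2
      rw [wordProd_rep, length_rep, ← hw] at u3
      exact ⟨u, u1, u2, by omega⟩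
    · rw [div_lt_iff₀ hn'] at hn1
      exact hn1.le)
  refine ⟨q, ?_⟩
  rw [← hq]
  exact htend

end Pool.Agent.K1H68.SR2

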